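import Mathlib

set_option autoImplicit false

open Polynomial

namespace Pool.Agent.Results.MP_987215_an.OddDerivative

open Classical in
/-- number of times `w` occurs in the list `z` -/
noncomputable def mult {n : ℕ} (z : Fin n → ℂ) (w : ℂ) : ℕ :=
  (Finset.univ.filter fun j => z j = w).card

/-- self-conjugate list of nodes -/
def SelfConj {n : ℕ} (z : Fin n → ℂ) : Prop :=
  (∀ w : ℂ, w.im ≠ 0 → mult z w = mult z ((starRingEnd ℂ) w)) ∧
    ∀ w : ℂ, w.im = 0 → Even (mult z w)

/-- nodal polynomial `∏ (X - z_j)` -/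
noncomputable def nodal {n : ℕ} (z : Fin n → ℂ) : ℂ[X] := ∏ j, (X - C (z j))

/-- `g ∈ 𝓔_n(𝔻)`: `g` is entire and `|g^(n)| ≤ 1` on the closed unit disc -/
def InE (n : ℕ) (g : ℂ → ℂ) : Prop :=
  Differentiable ℂ g ∧ ∀ z : ℂ, ‖z‖ ≤ 1 → ‖iteratedDeriv n g z‖ ≤ 1

/-- `p` is the Hermite interpolant of `g` at the nodes `z` -/
def IsHermite {n : ℕ} (g : ℂ → ℂ) (z : Fin n → ℂ) (p : ℂ[X]) : Prop :=
  p.degree < n ∧ ∀ w : ℂ, ∀ i : ℕ, i < mult z w →
    iteratedDeriv i (fun x => p.eval x) w = iteratedDeriv i g w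

/-- at the point `x`, the error of the `k`-th derivative for some `g ∈ 𝓔_n(𝔻)` is strictly larger
than `|f^(k)(x)| / n!`, where `f` is the nodal polynomial -/
def Exceeds (x : ℂ) (n k : ℕ) (z : Fin n → ℂ) : Prop :=
  ∃ (g : ℂ → ℂ) (p : ℂ[X]), InE n g ∧ IsHermite g z p ∧
    (1 / (n.factorial : ℝ)) * ‖iteratedDeriv k (fun t => (nodal z).eval t) x‖ <
      ‖iteratedDeriv k g x - iteratedDeriv k (fun t => p.eval t) x‖

theorem mult_two (a b : ℂ) (w : ℂ) :
    mult ![a, b] w = (if a = w then 1 else 0) + (if b = w then 1 else 0) := by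
  unfold mult
  rw [Finset.card_filter, Fin.sum_univ_two]
  have e0 : (![a, b] 0) = a := rfl
  have e1 : (![a, b] 1) = b := rfl
  congr 1

theorem selfConj_two (a : ℂ) (ha : a.im ≠ 0) : SelfConj ![a, (starRingEnd ℂ) a] := by
  have hc : a ≠ (starRingEnd ℂ) a := by
    intro h
    have := congrArg Complex.im h
    simp at this
    apply ha; linarith
  constructor
  · intro w _
    rw [mult_two, mult_two]
    have e1 : ((starRingEnd ℂ) a = (starRingEnd ℂ) w) ↔ a = w :=
      (starRingEnd ℂ).injective.eq_iff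
    have e2 : (a = (starRingEnd ℂ) w) ↔ (starRingEnd ℂ) a = w := by
      constructor
      · intro h; rw [h]; simp
      · intro h; rw [← h]; simp
    simp only [e1, e2]
    exact Nat.add_comm _ _
  · intro w hw
    rw [mult_two]
    rw [if_neg, if_neg]
    · simp
    · intro h
      apply ha
      have := congrArg Complex.im h
      simp at this
      rw [hw] at this; linarith
    · intro h
      apply ha; rw [h, hw]

theorem exceeds_two (x a : ℂ) (s : ℝ) (ha : a.im ≠ 0) (hs : ((s : ℝ) : ℂ) = a + (starRingEnd ℂ) a)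
    (hn : a * (starRingEnd ℂ) a = 1)
    (hx : 1 / 2 * ‖2 * x - s‖ < ‖((2 * x - s) * (x + s) + (x ^ 2 - s * x + 1)) / 6‖) :
    Exceeds x 2 1 ![a, (starRingEnd ℂ) a] := by
  have hc : a ≠ (starRingEnd ℂ) a := by
    intro h
    have := congrArg Complex.im h
    simp at this
    apply ha; linarith
  -- z^3 = f(z)(z+s) + (s^2-1) z - s
  refine ⟨fun z => z ^ 3 / 6, C (((s : ℂ) ^ 2 - 1) / 6) * X + C (-(s : ℂ) / 6), ⟨?_, ?_⟩, ⟨?_, ?_⟩, ?_⟩
  · fun_prop
  · intro z hz
    have h1 : iteratedDeriv 2 (fun z : ℂ => z ^ 3 / 6) = fun z => z := by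
      rw [iteratedDeriv_succ, iteratedDeriv_one]
      have : deriv (fun z : ℂ => z ^ 3 / 6) = fun z => z ^ 2 / 2 := by
        funext z
        have := ((hasDerivAt_pow 3 z).div_const 6).deriv
        rw [this]; norm_num; ring
      rw [this]
      funext z
      have := ((hasDerivAt_pow 2 z).div_const 2).deriv
      rw [this]; norm_num
    rw [h1]; exact hz
  · refine lt_of_le_of_lt (degree_linear_le) (by norm_num)
  · intro w i hi
    rw [mult_two] at hi
    have key : ∀ w : ℂ, w ^ 2 - s * w + 1 = 0 → 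
        iteratedDeriv 0 (fun x => (C (((s : ℂ) ^ 2 - 1) / 6) * X + C (-(s : ℂ) / 6)).eval x) w =
          iteratedDeriv 0 (fun z : ℂ => z ^ 3 / 6) w := by
      intro w hw
      simp only [iteratedDeriv_zero, eval_add, eval_mul, eval_C, eval_X]
      linear_combination (-(w + s) / 6) * hw
    by_cases h0 : a = w
    · have h1 : ¬ ((starRingEnd ℂ) a = w) := by
        intro h; exact hc (h0.trans h.symm)
      rw [if_pos h0, if_neg h1] at hi
      obtain rfl : i = 0 := by omega
      apply key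
      rw [hs, ← h0]
      linear_combination -hn
    · rw [if_neg h0] at hi
      by_cases h1 : (starRingEnd ℂ) a = w
      · rw [if_pos h1] at hi
        obtain rfl : i = 0 := by omega
        apply key
        rw [hs, ← h1]
        linear_combination -hn
      · rw [if_neg h1] at hi
        omega
  · have hnod : (fun t => (nodal ![a, (starRingEnd ℂ) a]).eval t) =
        fun t : ℂ => t ^ 2 - s * t + 1 := by
      funext t
      simp only [nodal, Fin.prod_univ_two, Matrix.cons_val_zero, Matrix.cons_val_one, eval_mul,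
        eval_sub, eval_X, eval_C]
      rw [hs]
      linear_combination hn
    rw [hnod, iteratedDeriv_one, iteratedDeriv_one, iteratedDeriv_one]
    have d1 : deriv (fun t : ℂ => t ^ 2 - s * t + 1) x = 2 * x - s := by
      have h : HasDerivAt (fun t : ℂ => t ^ 2 - s * t + 1) (2 * x - s) x := by
        have := (((hasDerivAt_pow 2 x).sub ((hasDerivAt_id x).const_mul (s : ℂ))).add_const 1)
        refine this.congr_deriv ?_
        push_cast
        ring
      exact h.deriv
    have d2 : deriv (fun t : ℂ => t ^ 3 / 6) x = x ^ 2 / 2 := by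
      have := ((hasDerivAt_pow 3 x).div_const 6).deriv
      rw [this]; norm_num; ring
    have d3 : deriv (fun t : ℂ => (C (((s : ℂ) ^ 2 - 1) / 6) * X + C (-(s : ℂ) / 6)).eval t) x =
        ((s : ℂ) ^ 2 - 1) / 6 := by
      rw [Polynomial.deriv]
      simp
    rw [d1, d2, d3]
    have e : x ^ 2 / 2 - ((s : ℂ) ^ 2 - 1) / 6 =
        ((2 * x - s) * (x + s) + (x ^ 2 - s * x + 1)) / 6 := by ring
    rw [e]
    norm_num [Nat.factorial] at hx ⊢
    exact hx

/-- Q1 and Q2 both fail, with `n = 2`, `k = 1`. -/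
theorem result :
    (∃ (n k : ℕ) (z : Fin n → ℂ), 1 ≤ n ∧ k ≤ n - 1 ∧ (∀ j, ‖z j‖ ≤ 1) ∧ SelfConj z ∧
      Exceeds 1 n k z) ∧
    (∃ (n k : ℕ) (z : Fin n → ℂ), 1 ≤ n ∧ k ≤ n - 1 ∧ (∀ j, ‖z j‖ ≤ 1) ∧ SelfConj z ∧
      (∀ j, 0 ≤ (z j).re) ∧ Exceeds 0 n k z) := by
  constructor
  · have h7 : Real.sqrt 7 ^ 2 = 7 := Real.sq_sqrt (by norm_num)
    have h7' : Real.sqrt 7 ≠ 0 := by positivity
    set a : ℂ := ⟨3 / 4, Real.sqrt 7 / 4⟩ with ha
    have hn : a * (starRingEnd ℂ) a = 1 := by
      rw [Complex.mul_conj, Complex.normSq_apply]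
      simp only [ha]
      norm_cast
      nlinarith
    have hna : ‖a‖ = 1 := by
      have h := congrArg norm hn
      rw [norm_mul, Complex.norm_conj, norm_one] at h
      nlinarith [norm_nonneg a]
    refine ⟨2, 1, ![a, (starRingEnd ℂ) a], by norm_num, by norm_num, ?_, selfConj_two a ?_, 
      exceeds_two 1 a (3 / 2) ?_ ?_ hn ?_⟩
    · intro j
      fin_cases j
      · simp [hna]
      · simp [hna]
    · simp [ha]
    · simp [ha]
    · apply Complex.ext
      · simp [ha]; norm_num
      · simp [ha]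
    · norm_num
  · refine ⟨2, 1, ![Complex.I, (starRingEnd ℂ) Complex.I], by norm_num, by norm_num, ?_,
      selfConj_two _ (by simp), ?_, exceeds_two 0 Complex.I 0 (by simp) (by simp) (by simp) ?_⟩
    · intro j
      fin_cases j <;> simp
    · intro j
      fin_cases j <;> simp
    · norm_num

end Pool.Agent.Results.MP_987215_an.OddDerivative
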